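import Mathlib

set_option autoImplicit false

/-! Covering `(0, 1/2)` by the intervals of exponents of the family `H(a, K)`. -/

namespace Pool.Agent.Y680.CU

/-- the intervals of the family cover `(0, 1/2)` -/
theorem cover (θ : ℝ) (h0 : 0 < θ) (h1 : θ < 1 / 2) : ∃ L K : ℕ, 4 ≤ L ∧ 2 ≤ K ∧ K ≤ L ∧
    ((L : ℝ) + K - 1) / ((L : ℝ) * ((K : ℝ) + 1) - 1) < θ ∧
    θ < ((L : ℝ) + K) / ((L : ℝ) * ((K : ℝ) + 1)) := by
  classical
  obtain ⟨K0, hK0⟩ := exists_nat_gt (1 / θ)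
  have hex : ∃ K : ℕ, 2 ≤ K ∧ 1 < θ * ((K : ℝ) + 1) := by
    refine ⟨K0 + 2, by omega, ?_⟩
    rw [div_lt_iff₀ h0] at hK0
    push_cast
    nlinarith
  obtain ⟨K, hK2, hKθ, hKθ'⟩ : ∃ K : ℕ, 2 ≤ K ∧ 1 < θ * ((K : ℝ) + 1) ∧
      θ * ((K : ℝ) + 2) < 2 := by
    have hs := Nat.find_spec hex
    refine ⟨Nat.find hex, hs.1, hs.2, ?_⟩
    rcases eq_or_lt_of_le hs.1 with h | h
    · rw [← h]
      push_cast
      linarith
    · have hm := Nat.find_min hex (m := Nat.find hex - 1) (by omega)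
      have h2 : θ * (((Nat.find hex - 1 : ℕ) : ℝ) + 1) ≤ 1 := by
        by_contra hcon
        push Not at hcon
        exact hm ⟨by omega, hcon⟩
      have h3 : ((Nat.find hex - 1 : ℕ) : ℝ) + 1 = (Nat.find hex : ℝ) := by
        have : Nat.find hex - 1 + 1 = Nat.find hex := by omega
        exact_mod_cast this
      rw [h3] at h2
      nlinarith
  have hKr : (2 : ℝ) ≤ K := by exact_mod_cast hK2
  obtain ⟨δ, hδ⟩ : ∃ δ, δ = θ * ((K : ℝ) + 1) - 1 := ⟨_, rfl⟩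
  have hδ0 : 0 < δ := by rw [hδ]; linarith
  obtain ⟨L1, hL1⟩ := exists_nat_gt ((K : ℝ) / δ)
  have hex2 : ∃ L : ℕ, (K : ℝ) ≤ L * δ := by
    refine ⟨L1, ?_⟩
    rw [div_lt_iff₀ hδ0] at hL1
    exact hL1.le
  obtain ⟨L, hLK, hL3, hL4⟩ : ∃ L : ℕ, K + 2 ≤ L ∧ (L : ℝ) * δ < K ∧ (K : ℝ) ≤ ((L : ℝ) + 1) * δ := by
    have hs := Nat.find_spec hex2
    have hbig : K + 2 < Nat.find hex2 := by
      by_contra hcon
      push Not at hcon
      have h2 : ((Nat.find hex2 : ℕ) : ℝ) ≤ (K : ℝ) + 2 := by exact_mod_cast hcon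
      have h3 : ((Nat.find hex2 : ℕ) : ℝ) * δ ≤ ((K : ℝ) + 2) * δ :=
        mul_le_mul_of_nonneg_right h2 hδ0.le
      have h4 : ((K : ℝ) + 2) * δ < K := by
        rw [hδ]
        nlinarith
      linarith
    refine ⟨Nat.find hex2 - 1, by omega, ?_, ?_⟩
    · have hm := Nat.find_min hex2 (m := Nat.find hex2 - 1) (by omega)
      exact not_le.1 hm
    · have h3 : ((Nat.find hex2 - 1 : ℕ) : ℝ) + 1 = (Nat.find hex2 : ℝ) := by
        have : Nat.find hex2 - 1 + 1 = Nat.find hex2 := by omega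
        exact_mod_cast this
      rw [h3]
      exact hs
  have hLr : (K : ℝ) + 2 ≤ L := by exact_mod_cast hLK
  have hLK0 : 0 < (L : ℝ) * ((K : ℝ) + 1) := by
    have : (0 : ℝ) < L := by linarith
    positivity
  have hden : 0 < (L : ℝ) * ((K : ℝ) + 1) - 1 := by nlinarith
  refine ⟨L, K, by omega, hK2, by omega, ?_, ?_⟩
  · rw [div_lt_iff₀ hden]
    have e : θ * ((L : ℝ) * ((K : ℝ) + 1) - 1) = L * δ + L - θ := by rw [hδ]; ring
    rw [e]
    have e2 : δ + θ = θ * ((K : ℝ) + 2) - 1 := by rw [hδ]; ring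
    nlinarith
  · rw [lt_div_iff₀ hLK0]
    have e : θ * ((L : ℝ) * ((K : ℝ) + 1)) = L * δ + L := by rw [hδ]; ring
    rw [e]
    linarith

end Pool.Agent.Y680.CU
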