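import Pool.Agent.Y680.CU.Fam
import Pool.Agent.Y680.CT.Cloud

set_option autoImplicit false

/-! `H(a, K)` is a cloud-forest graph and not a thundercloud-forest graph. -/

namespace Pool.Agent.Y680.CU

open Finset SimpleGraph Pool.Agent.Y680.CT.Defs
open Pool.Agent.Y680.CT (acyclic_of_rank no_C4 two_le_nb one_le_nb)

variable {a : Bool → ℕ} {K : ℕ}

/-- the cloud -/
def Cl (a : Bool → ℕ) (K : ℕ) : Set (HV a K) := Set.range cl

theorem cl_mem (j : Fin K) : cl j ∈ Cl a K := ⟨j, rfl⟩

theorem tt_notMem (b : Bool) : (tt b : HV a K) ∉ Cl a K := by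
  rintro ⟨j, h⟩
  exact nomatch h

theorem lf_notMem (l : Σ i : Bool, Fin (a i)) : lf l ∉ Cl a K := by
  rintro ⟨j, h⟩
  exact nomatch (Sum.inr.inj h)

theorem nb_lf (l : Σ i : Bool, Fin (a i)) : nbF (HN a K) (Cl a K) (lf l) = {tt l.1} := by
  ext w
  constructor
  · rintro ⟨h1, h2⟩
    rcases w with b | l' | j
    · have h3 : b = l.1 := h2
      rw [h3]
      rfl
    · exact absurd h2 id
    · exact absurd (cl_mem j) h1
  · intro h
    have h' : w = tt l.1 := h
    rw [h']
    exact ⟨tt_notMem _, rfl⟩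

theorem isCloud_Cl : IsCloud (HN a K) (Cl a K) where
  independent := by
    rintro _ ⟨j, rfl⟩ _ ⟨j', rfl⟩ h
    exact h
  forest := by
    refine acyclic_of_rank (fun v => match v.1 with
      | Sum.inl false => 0
      | Sum.inl true => 1
      | Sum.inr _ => 2) ?_ ?_
    · rintro ⟨v, hv⟩ ⟨w, hw⟩ h
      have h' : (HN a K).Adj v w := h
      rcases v with b | l | j
      · rcases w with c | l' | j'
        · have h3 : b ≠ c := h'
          cases b <;> cases c <;> simp at h3 ⊢
        · cases b <;> simp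
        · exact absurd (cl_mem j') hw
      · rcases w with c | l' | j'
        · cases c <;> simp
        · exact absurd h' id
        · exact absurd (cl_mem j') hw
      · exact absurd (cl_mem j) hv
    · rintro ⟨v, hv⟩ ⟨w, hw⟩ ⟨w', hw'⟩ h h' hr hr'
      have g : (HN a K).Adj v w := h
      have g' : (HN a K).Adj v w' := h'
      apply Subtype.ext
      show w = w'
      rcases v with b | l | j
      · rcases w with c | l' | j'
        · rcases w' with c' | l'' | j''
          · have h3 : b ≠ c := g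
            have h4 : b ≠ c' := g'
            have : c = c' := by
              cases b <;> cases c <;> cases c' <;> simp at h3 h4 ⊢
            rw [this]
          · cases b <;> simp at hr'
          · exact absurd (cl_mem j'') hw'
        · cases b <;> simp at hr
        · exact absurd (cl_mem j') hw
      · rcases w with c | l' | j'
        · rcases w' with c' | l'' | j''
          · have h3 : c = l.1 := g
            have h4 : c' = l.1 := g'
            rw [h3, h4]
          · exact absurd g' id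
          · exact absurd (cl_mem j'') hw'
        · exact absurd g id
        · exact absurd (cl_mem j') hw
      · exact absurd (cl_mem j) hv
  ends := by
    rintro _ ⟨j, rfl⟩ v hv h
    rcases v with b | l | j'
    · exact absurd h id
    · right
      have := nb_lf (K := K) l
      unfold lf at this
      rw [this, Set.ncard_singleton]
    · exact absurd (cl_mem j') hv
  leaves := by
    rintro u v hu hv huv _ _ ⟨⟨_, ⟨j, rfl⟩, h1⟩, ⟨_, ⟨j', rfl⟩, h2⟩⟩
    rcases u with b | l | i
    · exact h1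
    · rcases v with c | l' | i'
      · exact h2
      · exact huv
      · exact h2
    · exact h1

/-- the only cloud of `H(a, K)` -/
theorem cloud_unique (ha : ∀ i, 2 ≤ a i) (hK : 2 ≤ K) {I : Set (HV a K)}
    (h : IsCloud (HN a K) I) : I = Cl a K := by
  obtain ⟨i0, i1, n01⟩ : ∃ i0 i1 : (b : Bool) → Fin (a b), ∀ b, i0 b ≠ i1 b :=
    ⟨fun b => ⟨0, by have := ha b; omega⟩, fun b => ⟨1, by have := ha b; omega⟩,
      fun b h => by simpa using congrArg Fin.val h⟩
  obtain ⟨j0, j1', n01'⟩ : ∃ j0 j1 : Fin K, j0 ≠ j1 :=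
    ⟨⟨0, by omega⟩, ⟨1, by omega⟩, fun h => by simpa using congrArg Fin.val h⟩
  have ncl : ∀ j j' : Fin K, j ≠ j' → (cl j : HV a K) ≠ cl j' := fun j j' hj e =>
    hj (Sum.inr.inj (Sum.inr.inj e))
  have nlf : ∀ l l' : (Σ i : Bool, Fin (a i)), l ≠ l' → (lf l : HV a K) ≠ lf l' :=
    fun l l' hl e => hl (Sum.inl.inj (Sum.inr.inj e))
  have nn : ∀ b : Bool, (⟨b, i0 b⟩ : (Σ i : Bool, Fin (a i))) ≠ ⟨b, i1 b⟩ := fun b e =>
    n01 b (eq_of_heq (Sigma.mk.inj e).2)
  -- two leaves and two cloud vertices are not all outside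
  have hC4 : ∀ (l l' : (Σ i : Bool, Fin (a i))) (j j' : Fin K), l ≠ l' → j ≠ j' → lf l ∉ I →
      lf l' ∉ I → cl j ∉ I → cl j' ∉ I → False := fun l l' j j' hl hj h1 h2 h3 h4 =>
    no_C4 h.forest (lf l) (cl j) (lf l') (cl j') h1 h3 h2 h4 trivial trivial trivial trivial
      (nlf l l' hl) (ncl j j' hj)
  have hlf : ∀ l, lf l ∉ I := by
    intro l hl
    have hcl : ∀ j, cl j ∉ I := fun j hj => h.independent _ hl _ hj trivial
    have hex : ∀ b : Bool, ∃ i : Fin (a b), lf ⟨b, i⟩ ∈ I := by
      intro b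
      by_contra hcon
      push Not at hcon
      exact hC4 ⟨b, i0 b⟩ ⟨b, i1 b⟩ j0 j1' (nn b) n01' (hcon _)
        (hcon _) (hcl j0) (hcl j1')
    obtain ⟨i, hi⟩ := hex false
    obtain ⟨i', hi'⟩ := hex true
    have h0 : tt false ∉ I := fun h' => h.independent _ h' _ hi rfl
    have h1 : tt true ∉ I := fun h' => h.independent _ h' _ hi' rfl
    have hadj : (HN a K).Adj (tt false) (tt true) := by rw [adj_tt]; decide
    have a1 : (nbF (HN a K) I (tt false)).ncard = 1 := by
      have g := h.ends _ hi (tt false) h0 rfl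
      have g' := one_le_nb h1 hadj
      omega
    have a2 : (nbF (HN a K) I (tt true)).ncard = 1 := by
      have g := h.ends _ hi' (tt true) h1 rfl
      have g' := one_le_nb h0 hadj.symm
      omega
    exact h.leaves _ _ h0 h1 hadj a1 a2 ⟨⟨_, hi, rfl⟩, ⟨_, hi', rfl⟩⟩
  have hcl : ∀ j, cl j ∈ I := by
    obtain ⟨j1, hj1⟩ : ∃ j, cl j ∈ I := by
      by_contra hcon
      push Not at hcon
      exact hC4 ⟨false, i0 false⟩ ⟨false, i1 false⟩ j0 j1' (nn false) n01' (hlf _)
        (hlf _) (hcon j0) (hcon j1')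
    intro j2
    by_contra hj2
    have htt : ∀ b : Bool, tt b ∈ I := by
      intro b
      by_contra hb
      have g := h.ends _ hj1 (lf ⟨b, i0 b⟩) (hlf _) trivial
      have g' := two_le_nb (H := HN a K) (I := I) (v := lf ⟨b, i0 b⟩) (a := cl j2) (b := tt b)
        (fun e => nomatch e) hj2 hb trivial rfl
      omega
    exact h.independent _ (htt false) _ (htt true) (by rw [adj_tt]; decide)
  have htt : ∀ b : Bool, tt b ∉ I := by
    intro b hb
    have hadj : (HN a K).Adj (tt b) (tt (!b)) := by rw [adj_tt]; cases b <;> decide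
    have hnb : tt (!b) ∉ I := fun h' => h.independent _ hb _ h' hadj
    have g := h.ends _ hb (tt (!b)) hnb hadj
    have g' := two_le_nb (H := HN a K) (I := I) (v := tt (!b)) (a := lf ⟨!b, i0 (!b)⟩)
      (b := lf ⟨!b, i1 (!b)⟩) (nlf _ _ (nn (!b))) (hlf _) (hlf _) rfl rfl
    omega
  ext x
  rcases x with b | l | j
  · exact ⟨fun hx => absurd hx (htt b), fun hx => absurd hx (tt_notMem b)⟩
  · exact ⟨fun hx => absurd hx (hlf l), fun hx => absurd hx (lf_notMem l)⟩
  · exact ⟨fun _ => cl_mem j, fun _ => hcl j⟩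

theorem cloudForest_HN : CloudForest (HN a K) := ⟨Cl a K, isCloud_Cl⟩

theorem not_thundercloud (ha : ∀ i, 2 ≤ a i) (hK : 2 ≤ K) : ¬ ThundercloudForest (HN a K) := by
  rintro ⟨I, hI, hcyc⟩
  rw [cloud_unique ha hK hI] at hcyc
  obtain ⟨i0, -⟩ : ∃ i0 : (b : Bool) → Fin (a b), True :=
    ⟨fun b => ⟨0, by have := ha b; omega⟩, trivial⟩
  obtain ⟨j0, -⟩ : ∃ j0 : Fin K, True := ⟨⟨0, by omega⟩, trivial⟩
  have e1 : (HN a K).Adj (cl j0) (lf ⟨false, i0 false⟩) := trivial
  have e2 : (HN a K).Adj (lf ⟨false, i0 false⟩) (tt false) := rfl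
  have e3 : (HN a K).Adj (tt false) (tt true) := by rw [adj_tt]; decide
  have e4 : (HN a K).Adj (tt true) (lf ⟨true, i0 true⟩) := rfl
  have e5 : (HN a K).Adj (lf ⟨true, i0 true⟩) (cl j0) := trivial
  have h := hcyc (cl j0) (SimpleGraph.Walk.cons e1 (SimpleGraph.Walk.cons e2
    (SimpleGraph.Walk.cons e3 (SimpleGraph.Walk.cons e4 (SimpleGraph.Walk.cons e5
    SimpleGraph.Walk.nil))))) (by
    rw [SimpleGraph.Walk.cons_isCycle_iff]
    refine ⟨?_, ?_⟩
    · rw [SimpleGraph.Walk.isPath_def]
      simp [cl, lf, tt]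
    · simp [cl, lf, tt]) (by simp; decide)
  have h2 : {x : HV a K | x ∈ Cl a K ∧ x ∈ (SimpleGraph.Walk.cons e1 (SimpleGraph.Walk.cons e2
      (SimpleGraph.Walk.cons e3 (SimpleGraph.Walk.cons e4 (SimpleGraph.Walk.cons e5
      SimpleGraph.Walk.nil))))).support} ⊆ {cl j0} := by
    rintro x ⟨hx, hxs⟩
    simp only [SimpleGraph.Walk.support_cons, SimpleGraph.Walk.support_nil, List.mem_cons,
      List.not_mem_nil, or_false] at hxs
    rcases hxs with rfl | rfl | rfl | rfl | rfl | rfl
    · rfl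
    · exact absurd hx (lf_notMem _)
    · exact absurd hx (tt_notMem _)
    · exact absurd hx (tt_notMem _)
    · exact absurd hx (lf_notMem _)
    · rfl
  have h3 := Set.ncard_le_ncard h2 (Set.toFinite _)
  rw [Set.ncard_singleton] at h3
  omega

end Pool.Agent.Y680.CU
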