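import Mathlib

set_option autoImplicit false

/-! The numerical inequality for the 2-density of `H(a, K)`. -/

namespace Pool.Agent.Y680.CU

/-- a bilinear function which is nonnegative at the corners of a rectangle is nonnegative on it -/
theorem bilin (α β γ δ x0 x1 y0 y1 x y : ℤ) (hx : x0 < x1) (hy : y0 < y1) (h1 : x0 ≤ x)
    (h2 : x ≤ x1) (h3 : y0 ≤ y) (h4 : y ≤ y1)
    (c00 : 0 ≤ α + β * x0 + γ * y0 + δ * (x0 * y0)) (c01 : 0 ≤ α + β * x0 + γ * y1 + δ * (x0 * y1))
    (c10 : 0 ≤ α + β * x1 + γ * y0 + δ * (x1 * y0))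
    (c11 : 0 ≤ α + β * x1 + γ * y1 + δ * (x1 * y1)) : 0 ≤ α + β * x + γ * y + δ * (x * y) := by
  by_contra hcon
  push Not at hcon
  have hp : 0 < (x1 - x0) * (y1 - y0) := mul_pos (by omega) (by omega)
  have h5 := mul_neg_of_pos_of_neg hp hcon
  have h6 : (x1 - x0) * (y1 - y0) * (α + β * x + γ * y + δ * (x * y)) =
      (α + β * x0 + γ * y0 + δ * (x0 * y0)) * ((x1 - x) * (y1 - y)) +
      (α + β * x0 + γ * y1 + δ * (x0 * y1)) * ((x1 - x) * (y - y0)) +
      (α + β * x1 + γ * y0 + δ * (x1 * y0)) * ((x - x0) * (y1 - y)) +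
      (α + β * x1 + γ * y1 + δ * (x1 * y1)) * ((x - x0) * (y - y0)) := by ring
  have g1 := mul_nonneg c00 (mul_nonneg (show 0 ≤ x1 - x by omega) (show 0 ≤ y1 - y by omega))
  have g2 := mul_nonneg c01 (mul_nonneg (show 0 ≤ x1 - x by omega) (show 0 ≤ y - y0 by omega))
  have g3 := mul_nonneg c10 (mul_nonneg (show 0 ≤ x - x0 by omega) (show 0 ≤ y1 - y by omega))
  have g4 := mul_nonneg c11 (mul_nonneg (show 0 ≤ x - x0 by omega) (show 0 ≤ y - y0 by omega))
  rw [h6] at h5
  linarith

/-- the numerical inequality -/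
theorem num_ineq (A0 A1 K T0 T1 a0 a1 m : ℤ) (hA0 : 2 ≤ A0) (hA1 : 2 ≤ A1) (h01 : A0 ≤ A1 + 1)
    (h10 : A1 ≤ A0 + 1) (hK : 2 ≤ K) (hKL : K ≤ A0 + A1) (hT0 : T0 = 0 ∨ T0 = 1)
    (hT1 : T1 = 0 ∨ T1 = 1) (p0 : 0 ≤ a0) (p1 : 0 ≤ a1) (pm : 0 ≤ m) (q0 : a0 ≤ A0)
    (q1 : a1 ≤ A1) (qm : m ≤ K) (h3 : 3 ≤ T0 + T1 + a0 + a1 + m) :
    (A0 + A1 + K) * (T0 * T1 + T0 * a0 + T1 * a1 + (a0 + a1) * m) +
      2 * ((A0 + A1) * (K + 1)) ≤
      (A0 + A1) * (K + 1) * (T0 + T1 + a0 + a1 + m) + (A0 + A1 + K) := by
  obtain ⟨L, hL⟩ : ∃ L, L = A0 + A1 := ⟨_, rfl⟩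
  obtain ⟨l, hl⟩ : ∃ l, l = a0 + a1 := ⟨_, rfl⟩
  rw [← hL]
  have hL4 : 4 ≤ L := by omega
  have hl0 : 0 ≤ l := by omega
  have hlL : l ≤ L := by omega
  have hKL' : K ≤ L := by omega
  obtain ⟨s, hs⟩ : ∃ s, s = L + K := ⟨_, rfl⟩
  obtain ⟨d, hd⟩ : ∃ d, d = L * (K + 1) := ⟨_, rfl⟩
  rw [← hs, ← hd]
  have hds : d - s = K * (L - 1) := by rw [hd, hs]; ring
  have hds0 : 0 ≤ d - s := by rw [hds]; exact mul_nonneg (by omega) (by omega)
  have hs0 : 0 ≤ s := by omega
  have hd0 : 0 ≤ d := by omega
  -- both centres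
  have both : 0 ≤ 0 + (d - s) * l + d * m + (-s) * (l * m) := by
    refine bilin _ _ _ _ 0 L 0 K l m (by omega) (by omega) hl0 hlL pm qm ?_ ?_ ?_ ?_
    · simp
    · have := mul_nonneg hd0 (show 0 ≤ K by omega)
      simpa using this
    · have := mul_nonneg hds0 (show 0 ≤ L by omega)
      simpa using this
    · have : 0 + (d - s) * L + d * K + (-s) * (L * K) = 0 := by rw [hd, hs]; ring
      exact this.ge
  -- corner values
  have cA1 : ∀ A : ℤ, 2 ≤ A → 0 ≤ s + A * (d - 2 * s) := by
    intro A hA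
    have e : d - 2 * s = L * (K - 1) - 2 * K := by rw [hd, hs]; ring
    have e' : 0 ≤ L * (K - 1) - 2 * K := by
      nlinarith [mul_nonneg (show 0 ≤ L - 4 by omega) (show 0 ≤ K - 1 by omega)]
    rw [e]
    have := mul_nonneg (show 0 ≤ A by omega) e'
    omega
  have cAK : ∀ A : ℤ, 2 ≤ A → 2 * A ≤ L + 1 → 0 ≤ (K + 1) * (L * (K - 1) - A * K) + s := by
    intro A hA hAL
    have g1 := mul_nonneg (show 0 ≤ L - 4 by omega) (show 0 ≤ K - 2 by omega)
    have g2 := mul_nonneg (show 0 ≤ K + 1 by omega) g1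
    have g3 := mul_nonneg (mul_nonneg (show 0 ≤ K + 1 by omega) (show 0 ≤ K by omega))
      (show 0 ≤ L + 1 - 2 * A by omega)
    have g4 := mul_nonneg (show 0 ≤ K - 2 by omega) (show 0 ≤ K - 2 by omega)
    rw [hs]
    nlinarith
  -- one centre
  have one : ∀ A a : ℤ, 2 ≤ A → 2 * A ≤ L + 1 → 0 ≤ a → a ≤ l → a ≤ A → 2 ≤ l + m →
      s * (a + l * m) + 2 * d ≤ d * (1 + l + m) + s := by
    intro A a hA hAL ha hal haA hlm
    rcases eq_or_lt_of_le pm with hm | hm
    · rw [← hm] at hlm ⊢
      have g1 := mul_nonneg hds0 (show 0 ≤ l - 1 by omega)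
      have g2 := mul_nonneg hs0 (show 0 ≤ l - a by omega)
      nlinarith
    · rcases eq_or_lt_of_le hl0 with hl' | hl'
      · have ha0 : a = 0 := by omega
        rw [← hl', ha0]
        rw [← hl'] at hlm
        have g1 := mul_nonneg hd0 (show 0 ≤ m - 1 by omega)
        nlinarith
      · rcases le_total l A with hlA | hlA
        · have g : 0 ≤ (s - d) + (d - s) * l + d * m + (-s) * (l * m) := by
            refine bilin _ _ _ _ 1 A 1 K l m (by omega) (by omega) (by omega) hlA (by omega) qm
              ?_ ?_ ?_ ?_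
            · have : (s - d) + (d - s) * 1 + d * 1 + (-s) * (1 * 1) = d - s := by ring
              rw [this]; exact hds0
            · have : (s - d) + (d - s) * 1 + d * K + (-s) * (1 * K) = (d - s) * K := by ring
              rw [this]; exact mul_nonneg hds0 (by omega)
            · have : (s - d) + (d - s) * A + d * 1 + (-s) * (A * 1) = s + A * (d - 2 * s) := by
                ring
              rw [this]; exact cA1 A hA
            · have : (s - d) + (d - s) * A + d * K + (-s) * (A * K) =
                  (K + 1) * (L * (K - 1) - A * K) + s := by rw [hd, hs]; ring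
              rw [this]; exact cAK A hA hAL
          have g2 := mul_nonneg hs0 (show 0 ≤ l - a by omega)
          nlinarith
        · have g : 0 ≤ (s - d - s * A) + d * l + d * m + (-s) * (l * m) := by
            refine bilin _ _ _ _ A L 1 K l m (by omega) (by omega) hlA hlL (by omega) qm
              ?_ ?_ ?_ ?_
            · have : (s - d - s * A) + d * A + d * 1 + (-s) * (A * 1) = s + A * (d - 2 * s) := by
                ring
              rw [this]; exact cA1 A hA
            · have : (s - d - s * A) + d * A + d * K + (-s) * (A * K) =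
                  (K + 1) * (L * (K - 1) - A * K) + s := by rw [hd, hs]; ring
              rw [this]; exact cAK A hA hAL
            · have : (s - d - s * A) + d * L + d * 1 + (-s) * (L * 1) =
                  L * (K * (L - 1)) - s * (A - 1) := by rw [← hds]; ring
              rw [this]
              have g1 := mul_nonneg hs0 (show 0 ≤ L + 1 - 2 * A by omega)
              have g3 : 0 ≤ 2 * L * K - s := by
                rw [hs]
                nlinarith [mul_nonneg (show 0 ≤ L by omega) (show 0 ≤ K - 1 by omega),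
                  mul_nonneg (show 0 ≤ K by omega) (show 0 ≤ L - 1 by omega)]
              have g4 := mul_nonneg (show 0 ≤ L - 1 by omega) g3
              nlinarith
            · have : (s - d - s * A) + d * L + d * K + (-s) * (L * K) =
                  L * (L + 1 - 2 * A) + (L - K) * (A - 1) := by rw [hd, hs]; ring
              rw [this]
              exact add_nonneg (mul_nonneg (by omega) (by omega))
                (mul_nonneg (by omega) (by omega))
          have g2 := mul_nonneg hs0 (show 0 ≤ A - a by omega)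
          nlinarith
  rcases hT0 with rfl | rfl
  · rcases hT1 with rfl | rfl
    · rw [← hl]
      have h3' : 3 ≤ l + m := by omega
      have goal' : s * (l * m) + 2 * d ≤ d * (l + m) + s := by
        rcases eq_or_lt_of_le pm with hm | hm
        · rw [← hm] at h3' ⊢
          nlinarith [mul_nonneg hd0 (show 0 ≤ l - 3 by omega)]
        · rcases eq_or_lt_of_le hl0 with hl' | hl'
          · rw [← hl'] at h3' ⊢
            nlinarith [mul_nonneg hd0 (show 0 ≤ m - 3 by omega)]
          · have g : 0 ≤ (s - 2 * d) + d * l + d * m + (-s) * (l * m) := by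
              refine bilin _ _ _ _ 1 L 1 K l m (by omega) (by omega) (by omega) hlL (by omega) qm
                ?_ ?_ ?_ ?_
              · have : (s - 2 * d) + d * 1 + d * 1 + (-s) * (1 * 1) = 0 := by ring
                exact this.ge
              · have : (s - 2 * d) + d * 1 + d * K + (-s) * (1 * K) = (K - 1) * (d - s) := by ring
                rw [this]; exact mul_nonneg (by omega) hds0
              · have : (s - 2 * d) + d * L + d * 1 + (-s) * (L * 1) = (L - 1) * (d - s) := by ring
                rw [this]; exact mul_nonneg (by omega) hds0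
              · have : (s - 2 * d) + d * L + d * K + (-s) * (L * K) = (L - 1) * (L - K) := by
                  rw [hd, hs]; ring
                rw [this]; exact mul_nonneg (by omega) (by omega)
            nlinarith
      have e1 : (0 : ℤ) * 0 + 0 * a0 + 0 * a1 + l * m = l * m := by ring
      have e2 : (0 : ℤ) + 0 + a0 + a1 + m = l + m := by rw [hl]; ring
      rw [e1, e2]
      exact goal'
    · have g := one A1 a1 hA1 (by omega) p1 (by omega) q1 (by omega)
      rw [← hl]
      have e1 : (0 : ℤ) * 1 + 0 * a0 + 1 * a1 + l * m = a1 + l * m := by ring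
      have e2 : (0 : ℤ) + 1 + a0 + a1 + m = 1 + l + m := by rw [hl]; ring
      rw [e1, e2]
      exact g
  · rcases hT1 with rfl | rfl
    · have g := one A0 a0 hA0 (by omega) p0 (by omega) q0 (by omega)
      rw [← hl]
      have e1 : (1 : ℤ) * 0 + 1 * a0 + 0 * a1 + l * m = a0 + l * m := by ring
      have e2 : (1 : ℤ) + 0 + a0 + a1 + m = 1 + l + m := by rw [hl]; ring
      rw [e1, e2]
      exact g
    · rw [← hl]
      have e1 : (1 : ℤ) * 1 + 1 * a0 + 1 * a1 + l * m = 1 + (l + l * m) := by rw [hl]; ring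
      have e2 : (1 : ℤ) + 1 + a0 + a1 + m = 2 + (l + m) := by rw [hl]; ring
      rw [e1, e2]
      nlinarith [both]

end Pool.Agent.Y680.CU
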