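import Pool.Agent.Y680.CU.Fam
import Pool.Agent.Y680.CU.Num
import Pool.Agent.Y680.CT.Defs

set_option autoImplicit false

/-! The 2-density of `H(a, K)`. -/

namespace Pool.Agent.Y680.CU

open Finset SimpleGraph Pool.Agent.Y680.CT.Defs

variable {a : Bool → ℕ} {K : ℕ}

open Classical in
theorem sub_bound (ha : ∀ i, 2 ≤ a i) (h01 : a false ≤ a true + 1) (h10 : a true ≤ a false + 1)
    (hK : 2 ≤ K) (hKL : K ≤ a false + a true) (F : (HN a K).Subgraph) (hF : 3 ≤ F.verts.ncard) :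
    (a false + a true + K) * F.edgeSet.ncard + 2 * ((a false + a true) * (K + 1)) ≤
      (a false + a true) * (K + 1) * F.verts.ncard + (a false + a true + K) := by
  set χ : HV a K → ℕ := fun x => if x ∈ F.verts then 1 else 0 with hχ
  have hχ1 : ∀ x, χ x ≤ 1 := by
    intro x; simp only [hχ]; split_ifs <;> omega
  have hv : F.verts.ncard = χ (tt false) + χ (tt true) +
      (∑ i, χ (lf ⟨false, i⟩)) + (∑ i, χ (lf ⟨true, i⟩)) + ∑ j, χ (cl j) := by
    have h1 : F.verts.ncard = (univ.filter (fun x => x ∈ F.verts)).card := by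
      rw [← Set.ncard_coe_finset]
      congr 1
      ext x
      simp
    rw [h1, Finset.card_filter, Fintype.sum_sum_type, Fintype.sum_sum_type, Fintype.sum_sigma,
      Fintype.sum_bool, Fintype.sum_bool]
    simp only [hχ, tt, lf, cl]
    ring
  have he : F.edgeSet.ncard ≤ χ (tt false) * χ (tt true) + χ (tt false) * (∑ i, χ (lf ⟨false, i⟩))
      + χ (tt true) * (∑ i, χ (lf ⟨true, i⟩)) +
      ((∑ i, χ (lf ⟨false, i⟩)) + ∑ i, χ (lf ⟨true, i⟩)) * ∑ j, χ (cl j) := by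
    have h1 : F.edgeSet ⊆ fe '' {e : EN a K | src e ∈ F.verts ∧ tgt e ∈ F.verts} := by
      intro e he
      induction e with
      | _ x y =>
        rw [SimpleGraph.Subgraph.mem_edgeSet] at he
        have ha := F.edge_vert he
        have hb := F.edge_vert he.symm
        obtain ⟨e, h | h⟩ := fe_surj (F.adj_sub he)
        · exact ⟨e, ⟨h.1 ▸ ha, h.2 ▸ hb⟩, by rw [fe, h.1, h.2]⟩
        · exact ⟨e, ⟨h.1 ▸ hb, h.2 ▸ ha⟩, by rw [fe, h.1, h.2, Sym2.eq_swap]⟩
    have h2 : F.edgeSet.ncard ≤ {e : EN a K | src e ∈ F.verts ∧ tgt e ∈ F.verts}.ncard := by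
      refine (Set.ncard_le_ncard h1 (Set.toFinite _)).trans ?_
      rw [Set.ncard_image_of_injective _ fe_inj]
    have h3 : {e : EN a K | src e ∈ F.verts ∧ tgt e ∈ F.verts}.ncard =
        ∑ e : EN a K, χ (src e) * χ (tgt e) := by
      have h4 : {e : EN a K | src e ∈ F.verts ∧ tgt e ∈ F.verts}.ncard =
          (univ.filter (fun e : EN a K => src e ∈ F.verts ∧ tgt e ∈ F.verts)).card := by
        rw [← Set.ncard_coe_finset]
        congr 1
        ext x
        simp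
      rw [h4, Finset.card_filter]
      apply sum_congr rfl
      intro e _
      simp only [hχ]
      split_ifs <;> simp_all
    rw [h3, Fintype.sum_sum_type, Fintype.sum_sum_type] at h2
    refine h2.trans (le_of_eq ?_)
    have e1 : (∑ x : Unit, χ (src (Sum.inl x : EN a K)) * χ (tgt (Sum.inl x : EN a K))) =
        χ (tt false) * χ (tt true) := by
      simp [src, tgt]
    have e2 : (∑ l : (Σ i : Bool, Fin (a i)), χ (src (Sum.inr (Sum.inl l) : EN a K)) *
        χ (tgt (Sum.inr (Sum.inl l) : EN a K))) =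
        χ (tt true) * (∑ i, χ (lf ⟨true, i⟩)) + χ (tt false) * (∑ i, χ (lf ⟨false, i⟩)) := by
      rw [Fintype.sum_sigma, Fintype.sum_bool, mul_sum, mul_sum]
      rfl
    have e3 : (∑ q : (Σ i : Bool, Fin (a i)) × Fin K, χ (src (Sum.inr (Sum.inr q) : EN a K)) *
        χ (tgt (Sum.inr (Sum.inr q) : EN a K))) =
        ((∑ i, χ (lf ⟨false, i⟩)) + ∑ i, χ (lf ⟨true, i⟩)) * ∑ j, χ (cl j) := by
      have e4 : (∑ q : (Σ i : Bool, Fin (a i)) × Fin K, χ (src (Sum.inr (Sum.inr q) : EN a K)) *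
          χ (tgt (Sum.inr (Sum.inr q) : EN a K))) =
          ∑ q : (Σ i : Bool, Fin (a i)) × Fin K, χ (lf q.1) * χ (cl q.2) := rfl
      rw [e4, Fintype.sum_prod_type]
      show (∑ x : (Σ i : Bool, Fin (a i)), ∑ y : Fin K, χ (lf x) * χ (cl y)) = _
      rw [← Finset.sum_mul_sum]
      congr 1
      rw [Fintype.sum_sigma, Fintype.sum_bool]
      ring
    rw [e1, e2, e3]
    ring
  have hle : ∀ (N : ℕ) (g : Fin N → HV a K), ∑ i, χ (g i) ≤ N := by
    intro N g
    calc ∑ i, χ (g i) ≤ ∑ _i : Fin N, 1 := sum_le_sum fun i _ => hχ1 _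
      _ = N := by simp
  have ht : ∀ x, (χ x : ℤ) = 0 ∨ (χ x : ℤ) = 1 := by
    intro x
    have := hχ1 x
    omega
  have key := num_ineq (a false) (a true) K (χ (tt false)) (χ (tt true))
    (∑ i, χ (lf ⟨false, i⟩) : ℕ) (∑ i, χ (lf ⟨true, i⟩) : ℕ) (∑ j, χ (cl j) : ℕ)
    (by exact_mod_cast ha false) (by exact_mod_cast ha true) (by exact_mod_cast h01)
    (by exact_mod_cast h10) (by exact_mod_cast hK) (by exact_mod_cast hKL) (ht _) (ht _)
    (Int.natCast_nonneg _) (Int.natCast_nonneg _) (Int.natCast_nonneg _)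
    (by exact_mod_cast hle _ _) (by exact_mod_cast hle _ _) (by exact_mod_cast hle _ _)
    (by rw [hv] at hF; exact_mod_cast hF)
  have key' : (a false + a true + K) * (χ (tt false) * χ (tt true) +
      χ (tt false) * (∑ i, χ (lf ⟨false, i⟩)) + χ (tt true) * (∑ i, χ (lf ⟨true, i⟩)) +
      ((∑ i, χ (lf ⟨false, i⟩)) + ∑ i, χ (lf ⟨true, i⟩)) * ∑ j, χ (cl j)) +
      2 * ((a false + a true) * (K + 1)) ≤
      (a false + a true) * (K + 1) * (χ (tt false) + χ (tt true) +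
      (∑ i, χ (lf ⟨false, i⟩)) + (∑ i, χ (lf ⟨true, i⟩)) + ∑ j, χ (cl j)) +
      (a false + a true + K) := by
    exact_mod_cast key
  rw [← hv] at key'
  have := Nat.mul_le_mul_left (a false + a true + K) he
  omega

theorem m2_HN (ha : ∀ i, 2 ≤ a i) (h01 : a false ≤ a true + 1) (h10 : a true ≤ a false + 1)
    (hK : 2 ≤ K) (hKL : K ≤ a false + a true) : m2 (HN a K) =
    ((a false + a true : ℕ) : ℝ) * ((K : ℝ) + 1) / (((a false + a true : ℕ) : ℝ) + K) := by
  obtain ⟨L, hL⟩ : ∃ L, L = a false + a true := ⟨_, rfl⟩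
  rw [← hL]
  have hL4 : 4 ≤ L := by have := ha false; have := ha true; omega
  have hLr : (4 : ℝ) ≤ L := by exact_mod_cast hL4
  have hKr : (2 : ℝ) ≤ K := by exact_mod_cast hK
  have hub : ∀ r ∈ {r : ℝ | ∃ F : (HN a K).Subgraph, 3 ≤ F.verts.ncard ∧
      r = ((F.edgeSet.ncard : ℝ) - 1) / ((F.verts.ncard : ℝ) - 2)},
      r ≤ (L : ℝ) * ((K : ℝ) + 1) / ((L : ℝ) + K) := by
    rintro r ⟨F, hF, rfl⟩
    have h1 := sub_bound ha h01 h10 hK hKL F hF
    rw [← hL] at h1
    have h2 : ((L : ℝ) + K) * F.edgeSet.ncard + 2 * (L * (K + 1)) ≤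
        L * (K + 1) * F.verts.ncard + (L + K) := by
      exact_mod_cast h1
    have h3 : (3 : ℝ) ≤ F.verts.ncard := by exact_mod_cast hF
    rw [div_le_div_iff₀ (by linarith) (by linarith)]
    nlinarith
  have hmem : (L : ℝ) * ((K : ℝ) + 1) / ((L : ℝ) + K) ∈ {r : ℝ | ∃ F : (HN a K).Subgraph,
      3 ≤ F.verts.ncard ∧ r = ((F.edgeSet.ncard : ℝ) - 1) / ((F.verts.ncard : ℝ) - 2)} := by
    have h1 : (⊤ : (HN a K).Subgraph).verts.ncard = L + K + 2 := by
      rw [SimpleGraph.Subgraph.verts_top, Set.ncard_univ, Nat.card_eq_fintype_card, card_HV, hL]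
    have h2 : (⊤ : (HN a K).Subgraph).edgeSet.ncard = 1 + (L + L * K) := by
      rw [SimpleGraph.Subgraph.edgeSet_top, hL]
      exact edges_HN
    refine ⟨⊤, ?_, ?_⟩
    · rw [h1]; omega
    · rw [h1, h2]
      push_cast
      rw [div_eq_div_iff (by linarith) (by linarith)]
      ring
  unfold m2
  exact le_antisymm (csSup_le ⟨_, hmem⟩ hub) (le_csSup ⟨_, hub⟩ hmem)

end Pool.Agent.Y680.CU
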