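import Pool.Agent.Y680.CT.Main
import Pool.Agent.Y680.CT.Thr
import Pool.Agent.Y680.CU.Cloud

set_option autoImplicit false

/-! The general criterion for `δ_χ(H,p) ≥ 1/2`, also for graphs containing a graph with two
centres. -/

namespace Pool.Agent.Y680.CU

open Filter Topology Pool.Agent.W166.Gnp Pool.Agent.Y680.CT.Defs

lemma gnp_eq (n : ℕ) (p : ℝ) (A : SimpleGraph (Fin n) → Prop) : gnp n p A =
    Pr (allE n) p (fun S => A (SimpleGraph.fromEdgeSet (S : Set (Sym2 (Fin n))))) := by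
  classical
  unfold gnp
  exact sum_eq_Pr p A

/-- the growth conditions in the form used by `main` -/
lemma growth {vv ee : ℕ} (he0 : 1 ≤ ee) (p : ℕ → ℝ) (hp : ∀ n, 0 < p n ∧ p n ≤ 1)
    (h1 : Tendsto (fun n : ℕ => (n : ℝ) ^ (-(1 / 2) : ℝ) / p n) atTop (𝓝 0))
    (h2 : Tendsto (fun n : ℕ => p n / (n : ℝ) ^ (-((vv : ℝ) / ee))) atTop (𝓝 0)) :
    (∀ A : ℝ, 0 < A → ∀ᶠ n : ℕ in atTop, A ≤ p n ^ 2 * n) ∧
    (∀ a : ℝ, 0 < a → ∀ᶠ n : ℕ in atTop, (n : ℝ) ^ vv * p n ^ ee ≤ a) ∧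
    (∀ p0 : ℝ, 0 < p0 → ∀ᶠ n : ℕ in atTop, p n ≤ p0) := by
  have hee0 : (0 : ℝ) < ee := by exact_mod_cast he0
  refine ⟨?_, ?_, ?_⟩
  · intro A hA
    have hs : 0 < 1 / Real.sqrt A := by positivity
    filter_upwards [h1.eventually (gt_mem_nhds hs), eventually_ge_atTop 1] with n hn hn1
    have hn0 : (0 : ℝ) < n := by exact_mod_cast hn1
    rw [div_lt_iff₀ (hp n).1] at hn
    have h3 : (n : ℝ) ^ (-(1 / 2) : ℝ) = 1 / Real.sqrt n := by
      rw [Real.rpow_neg hn0.le, ← Real.sqrt_eq_rpow, one_div]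
    rw [h3, one_div_mul_eq_div, div_lt_div_iff₀ (Real.sqrt_pos.mpr hn0) (Real.sqrt_pos.mpr hA),
      one_mul] at hn
    have h4 : Real.sqrt A ^ 2 ≤ (p n * Real.sqrt n) ^ 2 :=
      pow_le_pow_left₀ (Real.sqrt_nonneg _) hn.le 2
    rw [mul_pow, Real.sq_sqrt hA.le, Real.sq_sqrt hn0.le] at h4
    exact h4
  · intro a ha
    have hs : 0 < min a 1 := lt_min ha one_pos
    filter_upwards [h2.eventually (gt_mem_nhds hs), eventually_ge_atTop 1] with n hn hn1
    have hn0 : (0 : ℝ) < n := by exact_mod_cast hn1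
    have hpow : (0 : ℝ) < (n : ℝ) ^ (-((vv : ℝ) / ee)) := by positivity
    have hx0 : 0 ≤ p n / (n : ℝ) ^ (-((vv : ℝ) / ee)) := by have := (hp n).1; positivity
    have h3 : (n : ℝ) ^ vv * p n ^ ee = (p n / (n : ℝ) ^ (-((vv : ℝ) / ee))) ^ ee := by
      rw [div_pow, ← Real.rpow_natCast ((n : ℝ) ^ (-((vv : ℝ) / ee))) ee, ← Real.rpow_mul hn0.le]
      have h5 : (-((vv : ℝ) / ee)) * (ee : ℝ) = -(vv : ℝ) := by
        field_simp
      rw [h5, Real.rpow_neg hn0.le, Real.rpow_natCast, div_inv_eq_mul]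
      ring
    rw [h3]
    have h4 : p n / (n : ℝ) ^ (-((vv : ℝ) / ee)) ≤ 1 := hn.le.trans (min_le_right _ _)
    calc (p n / (n : ℝ) ^ (-((vv : ℝ) / ee))) ^ ee ≤ (p n / (n : ℝ) ^ (-((vv : ℝ) / ee))) ^ 1 :=
          pow_le_pow_of_le_one hx0 h4 he0
      _ ≤ a := by rw [pow_one]; exact hn.le.trans (min_le_left _ _)
  · intro p0 hp0
    filter_upwards [h2.eventually (gt_mem_nhds hp0), eventually_ge_atTop 1] with n hn hn1
    have hn0 : (0 : ℝ) < n := by exact_mod_cast hn1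
    have hn1' : (1 : ℝ) ≤ n := by exact_mod_cast hn1
    have hpow : (0 : ℝ) < (n : ℝ) ^ (-((vv : ℝ) / ee)) := by positivity
    have hpow1 : (n : ℝ) ^ (-((vv : ℝ) / ee)) ≤ 1 :=
      Real.rpow_le_one_of_one_le_of_nonpos hn1' (by
        have : 0 ≤ (vv : ℝ) / ee := by positivity
        linarith)
    rw [div_lt_iff₀ hpow] at hn
    nlinarith

/-- the criterion -/
theorem crit {ι κ : Type} [Fintype ι] {H : SimpleGraph κ} {H₀ : SimpleGraph ι} {t₁ t₂ l₀ : ι}
    (hH : Pool.Agent.Y680.CT.Struct H₀ t₁ t₂) (hl : H₀.Adj t₁ l₀) (h12 : t₁ ≠ t₂) (hl2 : t₂ ≠ l₀)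
    (hcon : H₀.IsContained H)
    {vv ee : ℕ} (hvv : Fintype.card ι = vv + 3) (hee : H₀.edgeSet.ncard = ee + 2) (he0 : 1 ≤ ee)
    (p : ℕ → ℝ) (hp : ∀ n, 0 < p n ∧ p n ≤ 1)
    (h1 : Tendsto (fun n : ℕ => (n : ℝ) ^ (-(1 / 2) : ℝ) / p n) atTop (𝓝 0))
    (h2 : Tendsto (fun n : ℕ => p n / (n : ℝ) ^ (-((vv : ℝ) / ee))) atTop (𝓝 0)) :
    1 / 2 ≤ chromThreshold H p ∧
    ∀ d : ℝ, d < 1 / 2 → ∀ C : ℕ,
      Tendsto (fun n : ℕ => gnp n (p n) (fun Γ => ∃ G : SimpleGraph (Fin n), G ≤ Γ ∧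
        ¬ H.IsContained G ∧ (∀ v, d * p n * n ≤ ((G.neighborSet v).ncard : ℝ)) ∧
        ¬ G.Colorable C)) atTop (𝓝 1) := by
  obtain ⟨hlarge, hsmall, hp0⟩ := growth he0 p hp h1 h2
  have hmain : ∀ (C : ℕ) (ε : ℝ), 0 < ε → ∀ η : ℝ, 0 < η → ∀ᶠ n : ℕ in atTop,
      Pr (allE n) (p n) (fun S => ¬ ∃ G : SimpleGraph (Fin n),
        G ≤ SimpleGraph.fromEdgeSet (S : Set (Sym2 (Fin n))) ∧ ¬ H.IsContained G ∧
        (∀ v, (1 / 2 - ε) * (p n * n) ≤ ((G.neighborSet v).ncard : ℝ)) ∧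
        ¬ G.Colorable C) ≤ η := by
    intro C ε hε η hη
    obtain ⟨p0, A, a, n0, hp0', hA, ha, hmain⟩ :=
      Pool.Agent.Y680.CT.main hH hl h12 hl2 hvv hee C ε hε η hη
    filter_upwards [hlarge A hA, hsmall a ha, hp0 p0 hp0', eventually_ge_atTop n0] with n b1 b2 b3 b4
    refine le_trans (Pr_mono (hp n).1.le (hp n).2 ?_) (hmain n b4 (p n) (hp n).1 b3 b1 b2)
    rintro S _ h ⟨G, hG1, hG2, hG3, hG4⟩
    exact h ⟨G, hG1, fun h' => hG2 (hcon.trans h'), hG3, hG4⟩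
  constructor
  · refine Pool.Agent.Y680.CT.thr_lower H p hp (fun n A => gnp n (p n) A)
      (fun n A => gnp_eq n (p n) A) (1 / 2) ?_ ?_
    · intro C ε hε
      exact hmain C ε hε (1 / 4) (by norm_num)
    · have h3 : ∀ᶠ n : ℕ in atTop, (n : ℝ) ≤ p n * (n : ℝ) ^ 2 := by
        filter_upwards [hlarge 1 one_pos] with n hn
        have h4 := (hp n).1
        have h5 := (hp n).2
        have h6 : p n ^ 2 * n ≤ p n * n := by
          have : (0 : ℝ) ≤ n := Nat.cast_nonneg n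
          nlinarith [mul_nonneg h4.le this, mul_nonneg (mul_nonneg h4.le this) (sub_nonneg.mpr h5)]
        have h7 : 1 ≤ p n * n := hn.trans h6
        have : (0 : ℝ) ≤ n := Nat.cast_nonneg n
        nlinarith
      exact tendsto_atTop_mono' atTop h3 tendsto_natCast_atTop_atTop
  · intro d hd C
    rw [tendsto_order]
    constructor
    · intro a ha
      filter_upwards [hmain C (1 / 2 - d) (by linarith) ((1 - a) / 2) (by linarith)] with n hn
      rw [Pr_not] at hn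
      rw [gnp_eq]
      have h1 : 1 - (1 - a) / 2 ≤ Pr (allE n) (p n) (fun S => ∃ G : SimpleGraph (Fin n),
          G ≤ SimpleGraph.fromEdgeSet (S : Set (Sym2 (Fin n))) ∧ ¬ H.IsContained G ∧
          (∀ v, (1 / 2 - (1 / 2 - d)) * (p n * n) ≤ ((G.neighborSet v).ncard : ℝ)) ∧
          ¬ G.Colorable C) := by linarith
      have h2 : a < 1 - (1 - a) / 2 := by linarith
      refine h2.trans_le (h1.trans ?_)
      apply Pr_mono (hp n).1.le (hp n).2
      rintro S _ ⟨G, hG1, hG2, hG3, hG4⟩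
      refine ⟨G, hG1, hG2, fun v => le_trans (le_of_eq ?_) (hG3 v), hG4⟩
      ring
    · intro a ha
      filter_upwards with n
      rw [gnp_eq]
      exact lt_of_le_of_lt (Pr_le_one (hp n).1.le (hp n).2 _) ha

/-- `H(a, K)` has chromatic number three -/
theorem chrom_HN {a : Bool → ℕ} {K : ℕ} (ha : ∀ i, 2 ≤ a i) (hK : 2 ≤ K) :
    (HN a K).chromaticNumber = 3 := by
  apply le_antisymm
  · have h3 : (HN a K).Colorable 3 := by
      refine ⟨SimpleGraph.Coloring.mk (fun x => match x with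
        | Sum.inl false => (0 : Fin 3)
        | Sum.inl true => 1
        | Sum.inr (Sum.inl _) => 2
        | Sum.inr (Sum.inr _) => 0) ?_⟩
      intro v w h
      rcases v with b | l | j
      · rcases w with c | l' | j'
        · have h3 : b ≠ c := h
          cases b <;> cases c <;> simp at h3 ⊢
        · cases b <;> simp
        · exact absurd h id
      · rcases w with c | l' | j'
        · cases c <;> simp
        · exact absurd h id
        · simp
      · rcases w with c | l' | j'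
        · exact absurd h id
        · simp
        · exact absurd h id
    exact h3.chromaticNumber_le
  · by_contra hcon
    push Not at hcon
    have h2 : (HN a K).chromaticNumber ≤ ((2 : ℕ) : ℕ∞) := by
      have e3 : (3 : ℕ∞) = ((2 : ℕ) : ℕ∞) + 1 := by norm_num
      rw [e3] at hcon
      exact Order.le_of_lt_add_one hcon
    have h2' : (HN a K).Colorable 2 := SimpleGraph.chromaticNumber_le_iff_colorable.1 h2
    obtain ⟨C⟩ := h2'
    obtain ⟨i0, -⟩ : ∃ i0 : (b : Bool) → Fin (a b), True :=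
      ⟨fun b => ⟨0, by have := ha b; omega⟩, trivial⟩
    obtain ⟨j0, -⟩ : ∃ j0 : Fin K, True := ⟨⟨0, by omega⟩, trivial⟩
    have e1 : (HN a K).Adj (cl j0) (lf ⟨false, i0 false⟩) := trivial
    have e2 : (HN a K).Adj (lf ⟨false, i0 false⟩) (tt false) := rfl
    have e3 : (HN a K).Adj (tt false) (tt true) := by rw [adj_tt]; decide
    have e4 : (HN a K).Adj (tt true) (lf ⟨true, i0 true⟩) := rfl
    have e5 : (HN a K).Adj (lf ⟨true, i0 true⟩) (cl j0) := trivial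
    have f1 := C.valid e1
    have f2 := C.valid e2
    have f3 := C.valid e3
    have f4 := C.valid e4
    have f5 := C.valid e5
    have g1 := (C (cl j0)).2
    have g2 := (C (lf ⟨false, i0 false⟩)).2
    have g3 := (C (tt false)).2
    have g4 := (C (tt true)).2
    have g5 := (C (lf ⟨true, i0 true⟩)).2
    rw [Ne, Fin.ext_iff] at f1 f2 f3 f4 f5
    omega

end Pool.Agent.Y680.CU
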