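import Pool.Agent.Y680.CT.HN

set_option autoImplicit false

/-! The graphs `H(a, K)`: two adjacent centres `i` with `a i` leaves, `K` cloud vertices, and all
edges between the leaves and the cloud. -/

namespace Pool.Agent.Y680.CU

open Finset Pool.Agent.Y680.CT

/-- the vertices of `H(a, K)`: two centres, the leaves, the `K` cloud vertices -/
abbrev HV (a : Bool → ℕ) (K : ℕ) : Type := Bool ⊕ ((Σ i : Bool, Fin (a i)) ⊕ Fin K)

/-- adjacency in `H(a, K)` -/
def hadj (a : Bool → ℕ) (K : ℕ) : HV a K → HV a K → Prop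
  | Sum.inl b, Sum.inl c => b ≠ c
  | Sum.inl b, Sum.inr (Sum.inl l) => b = l.1
  | Sum.inr (Sum.inl l), Sum.inl b => b = l.1
  | Sum.inr (Sum.inl _), Sum.inr (Sum.inr _) => True
  | Sum.inr (Sum.inr _), Sum.inr (Sum.inl _) => True
  | _, _ => False

/-- the graph `H(a, K)` -/
def HN (a : Bool → ℕ) (K : ℕ) : SimpleGraph (HV a K) where
  Adj := hadj a K
  symm := ⟨by
    rintro (b | l | j) (c | l' | j') h
    · exact fun e => h e.symm
    · exact h
    · exact h
    · exact h
    · exact h
    · exact h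
    · exact h
    · exact h
    · exact h⟩
  loopless := ⟨by
    rintro (b | l | j) h
    · exact h rfl
    · exact h
    · exact h⟩

variable {a : Bool → ℕ} {K : ℕ}

/-- a centre -/
def tt (b : Bool) : HV a K := Sum.inl b
/-- a leaf -/
def lf (l : Σ i : Bool, Fin (a i)) : HV a K := Sum.inr (Sum.inl l)
/-- a cloud vertex -/
def cl (j : Fin K) : HV a K := Sum.inr (Sum.inr j)

theorem adj_tt (b c : Bool) : (HN a K).Adj (tt b) (tt c) ↔ b ≠ c := Iff.rfl
theorem adj_tl (b : Bool) (l : Σ i : Bool, Fin (a i)) : (HN a K).Adj (tt b) (lf l) ↔ b = l.1 := Iff.rfl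
theorem adj_lt (b : Bool) (l : Σ i : Bool, Fin (a i)) : (HN a K).Adj (lf l) (tt b) ↔ b = l.1 := Iff.rfl
theorem adj_lc (l : Σ i : Bool, Fin (a i)) (j : Fin K) : (HN a K).Adj (lf l) (cl j) := trivial
theorem adj_cl (l : Σ i : Bool, Fin (a i)) (j : Fin K) : (HN a K).Adj (cl j) (lf l) := trivial

theorem lf_ne {i : Bool} {x y : Fin (a i)} (h : x ≠ y) : (lf ⟨i, x⟩ : HV a K) ≠ lf ⟨i, y⟩ := by
  intro e
  have e1 := Sum.inl.inj (Sum.inr.inj e)
  exact h (eq_of_heq (Sigma.mk.inj e1).2)

theorem struct_HN (ha : ∀ i, 2 ≤ a i) (hK : 2 ≤ K) : Struct (HN a K) (tt false) (tt true) := by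
  have nF : (⟨0, by have := ha false; omega⟩ : Fin (a false)) ≠
      ⟨1, by have := ha false; omega⟩ := fun h => by simpa using congrArg Fin.val h
  have nT : (⟨0, by have := ha true; omega⟩ : Fin (a true)) ≠
      ⟨1, by have := ha true; omega⟩ := fun h => by simpa using congrArg Fin.val h
  have nK : (⟨0, by omega⟩ : Fin K) ≠ ⟨1, by omega⟩ := fun h => by simpa using congrArg Fin.val h
  refine struct_core (l2 := lf ⟨false, ⟨0, by have := ha false; omega⟩⟩)
    (l3 := lf ⟨false, ⟨1, by have := ha false; omega⟩⟩)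
    (l4 := lf ⟨true, ⟨0, by have := ha true; omega⟩⟩)
    (l5 := lf ⟨true, ⟨1, by have := ha true; omega⟩⟩)
    (k7 := cl ⟨0, by omega⟩) (k8 := cl ⟨1, by omega⟩) ?_ rfl rfl rfl rfl trivial trivial trivial
    trivial trivial trivial ?_ ?_ ?_ ?_ ?_
  · rw [adj_tt]; decide
  · exact fun h => nK (Sum.inr.inj (Sum.inr.inj h))
  · exact fun h => nomatch h
  · exact lf_ne nT
  · exact lf_ne nF
  · exact fun h => nomatch h

/-! ### counting edges -/

/-- names for the edges -/
abbrev EN (a : Bool → ℕ) (K : ℕ) : Type :=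
  Unit ⊕ ((Σ i : Bool, Fin (a i)) ⊕ ((Σ i : Bool, Fin (a i)) × Fin K))

/-- first end -/
def src : EN a K → HV a K
  | Sum.inl _ => tt false
  | Sum.inr (Sum.inl l) => tt l.1
  | Sum.inr (Sum.inr q) => lf q.1

/-- second end -/
def tgt : EN a K → HV a K
  | Sum.inl _ => tt true
  | Sum.inr (Sum.inl l) => lf l
  | Sum.inr (Sum.inr q) => cl q.2

/-- the edges -/
def fe (e : EN a K) : Sym2 (HV a K) := s(src e, tgt e)

theorem fe_adj (e : EN a K) : (HN a K).Adj (src e) (tgt e) := by
  rcases e with u | l | q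
  · show false ≠ true
    decide
  · rfl
  · trivial

theorem fe_surj {x y : HV a K} (h : (HN a K).Adj x y) :
    ∃ e : EN a K, (src e = x ∧ tgt e = y) ∨ (src e = y ∧ tgt e = x) := by
  rcases x with b | l | j
  · rcases y with c | l' | j'
    · have h' : b ≠ c := h
      refine ⟨Sum.inl (), ?_⟩
      cases b <;> cases c
      · exact absurd rfl h'
      · exact Or.inl ⟨rfl, rfl⟩
      · exact Or.inr ⟨rfl, rfl⟩
      · exact absurd rfl h'
    · have h' : b = l'.1 := h
      subst h'
      exact ⟨Sum.inr (Sum.inl l'), Or.inl ⟨rfl, rfl⟩⟩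
    · exact absurd h id
  · rcases y with c | l' | j'
    · have h' : c = l.1 := h
      subst h'
      exact ⟨Sum.inr (Sum.inl l), Or.inr ⟨rfl, rfl⟩⟩
    · exact absurd h id
    · exact ⟨Sum.inr (Sum.inr (l, j')), Or.inl ⟨rfl, rfl⟩⟩
  · rcases y with c | l' | j'
    · exact absurd h id
    · exact ⟨Sum.inr (Sum.inr (l', j)), Or.inr ⟨rfl, rfl⟩⟩
    · exact absurd h id

theorem fe_inj : Function.Injective (fe : EN a K → Sym2 (HV a K)) := by
  rintro (u | l | q) (u' | l' | q') h
  all_goals simp only [fe, Sym2.eq_iff, src, tgt, tt, lf, cl] at h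
  · rfl
  · simp at h
  · simp at h
  · simp at h
  · rcases h with h | h
    · rw [Sum.inl.inj (Sum.inr.inj h.2)]
    · exact nomatch h.1
  · simp at h
  · simp at h
  · simp at h
  · rcases h with h | h
    · have e1 := Sum.inl.inj (Sum.inr.inj h.1)
      have e2 := Sum.inr.inj (Sum.inr.inj h.2)
      rw [Prod.ext_iff.2 ⟨e1, e2⟩]
    · exact nomatch (Sum.inr.inj h.1)

theorem edges_HN : (HN a K).edgeSet.ncard =
    1 + ((a false + a true) + (a false + a true) * K) := by
  have h1 : (HN a K).edgeSet = fe '' (Set.univ : Set (EN a K)) := by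
    ext e
    induction e with
    | _ x y =>
      rw [SimpleGraph.mem_edgeSet, Set.image_univ, Set.mem_range]
      constructor
      · intro h
        obtain ⟨e, he | he⟩ := fe_surj h
        · exact ⟨e, by rw [fe, he.1, he.2]⟩
        · exact ⟨e, by rw [fe, he.1, he.2, Sym2.eq_swap]⟩
      · rintro ⟨e, he⟩
        have h := fe_adj e
        rw [fe, Sym2.eq_iff] at he
        rcases he with he | he
        · rw [← he.1, ← he.2]; exact h
        · rw [← he.1, ← he.2]; exact h.symm
  rw [h1, Set.ncard_image_of_injective _ fe_inj, Set.ncard_univ, Nat.card_eq_fintype_card]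
  simp [Fintype.card_sum, Fintype.card_prod, Fintype.card_sigma]
  ring

theorem card_HV : Fintype.card (HV a K) = (a false + a true) + K + 2 := by
  simp [Fintype.card_sum, Fintype.card_sigma]
  ring

end Pool.Agent.Y680.CU
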